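import Mathlib

set_option autoImplicit false
open Filter Topology

namespace Pool.Agent.H63.Vague

section Ring
variable {R : Type*} [Ring R]

theorem pow_formula {Z N : R} (hc : Commute Z N) (hN : N * N = 0) (k : ℕ) :
    (Z + (Z - 1) * N) ^ (k + 1) = Z ^ (k + 1) + ((k + 1 : ℕ) : R) * ((Z ^ (k + 1) - Z ^ k) * N) := by
  induction k with
  | zero => simp
  | succ k ih =>
    rw [pow_succ, ih]
    have h1 : N * Z = Z * N := hc.symm
    have h2 : (Z ^ (k + 1) - Z ^ k) * N * Z = (Z ^ (k + 1 + 1) - Z ^ (k + 1)) * N := by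
      rw [mul_assoc, h1, ← mul_assoc, sub_mul, ← pow_succ, ← pow_succ]
    have h3 : N * ((Z - 1) * N) = 0 := by
      rw [sub_mul, one_mul, mul_sub, ← mul_assoc, h1, mul_assoc, hN, mul_zero, sub_zero]
    have h4 : Z ^ (k + 1) * ((Z - 1) * N) = (Z ^ (k + 1 + 1) - Z ^ (k + 1)) * N := by
      rw [← mul_assoc, mul_sub, mul_one, ← pow_succ]
    rw [add_mul, mul_add, ← pow_succ, h4, mul_assoc, mul_add, h2, mul_assoc (Z ^ (k + 1) - Z ^ k), h3,
      mul_zero, add_zero]
    push_cast
    noncomm_ring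

theorem sum_pow_formula {Z N : R} (hc : Commute Z N) (hN : N * N = 0) (n : ℕ) :
    ∑ k ∈ Finset.range n, (Z + (Z - 1) * N) ^ (k + 1) =
      ∑ k ∈ Finset.range n, Z ^ (k + 1) + ((n : R) * (Z ^ n * N) -
        ∑ k ∈ Finset.range n, Z ^ k * N) := by
  induction n with
  | zero => simp
  | succ n ih =>
    rw [Finset.sum_range_succ, Finset.sum_range_succ, Finset.sum_range_succ, ih,
      pow_formula hc hN, sub_mul]
    push_cast
    noncomm_ring

end Ring

end Pool.Agent.H63.Vague
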