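import Mathlib

set_option autoImplicit false
open MeasureTheory Filter Topology
open scoped ENNReal ZeroAtInfty

namespace Pool.Agent.H63.Vague

section Measures

variable {G : Type} [Group G] [MeasurableSpace G]

/-- Convolution `μ * ν` of two complex measures on a group: the image of the product measure
`μ ⊗ ν` under the multiplication map `(x, y) ↦ x * y`. -/
noncomputable def conv (μ ν : ComplexMeasure G) : ComplexMeasure G :=
  (μ.prod ν (ContinuousLinearMap.mul ℝ ℂ)).map (fun p : G × G => p.1 * p.2)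

/-- Convolution powers: `μ⁰ = δ_e` and `μ^(n+1) = μ^n * μ`. -/
noncomputable def convPow (μ : ComplexMeasure G) : ℕ → ComplexMeasure G
  | 0 => VectorMeasure.dirac 1 1
  | n + 1 => conv (convPow μ n) μ

/-- The Cesàro means `μ_[n] = (1/n) (μ + μ² + ... + μⁿ)`. -/
noncomputable def measureMean (μ : ComplexMeasure G) (n : ℕ) : ComplexMeasure G :=
  (n : ℂ)⁻¹ • ∑ k ∈ Finset.range n, convPow μ (k + 1)

/-- `μ` is vague-ergodic: the Cesàro means `μ_[n]` converge, for the vague topology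
`σ(M(G), C₀(G))`, to some complex measure `μc`. -/
def VagueErgodic [TopologicalSpace G] (μ : ComplexMeasure G) : Prop :=
  ∃ μc : ComplexMeasure G, ∀ f : C₀(G, ℂ),
    Tendsto (fun n : ℕ => ∫ᵛ x, f x ∂[ContinuousLinearMap.mul ℝ ℂ; measureMean μ n]) atTop
      (𝓝 (∫ᵛ x, f x ∂[ContinuousLinearMap.mul ℝ ℂ; μc]))

/-- `T` is the convolution operator `λ_p(μ)` on `L^p(G, ν)`:
`(T f)(x) = ∫ f(y⁻¹ x) dμ(y)` for almost every `x`. -/
def IsConvolutionOperator (μ : ComplexMeasure G) (ν : Measure G) (p : ℝ≥0∞) [Fact (1 ≤ p)]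
    (T : Lp ℂ p ν →L[ℂ] Lp ℂ p ν) : Prop :=
  ∀ f : Lp ℂ p ν, ∀ᵐ x ∂ν, (T f : G → ℂ) x =
    ∫ᵛ y, (f : G → ℂ) (y⁻¹ * x) ∂[ContinuousLinearMap.mul ℝ ℂ; μ]

end Measures

/-- Mean ergodicity of a bounded operator: the Cesàro means `T_[n] = (1/n) (T + ... + Tⁿ)` converge
in the strong operator topology to a bounded operator `P`. -/
def MeanErgodic {X : Type*} [NormedAddCommGroup X] [NormedSpace ℂ X] (T : X →L[ℂ] X) : Prop :=
  ∃ P : X →L[ℂ] X, ∀ x : X,
    Tendsto (fun n : ℕ => (n : ℂ)⁻¹ • ∑ k ∈ Finset.range n, (T ^ (k + 1)) x) atTop (𝓝 (P x))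

end Pool.Agent.H63.Vague
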