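import Pool.Agent.H63.Vague.Main

set_option autoImplicit false
open MeasureTheory Filter Topology
open scoped ENNReal ZeroAtInfty

namespace Pool.Agent.H63.Vague

section
variable [TopologicalSpace Grp] [DiscreteTopology Grp] [MeasurableSpace Grp] [BorelSpace Grp]

theorem vagueErgodic_aa : VagueErgodic (toM aa : ComplexMeasure Grp) := by
  refine ⟨0, ?_⟩
  intro f
  have h1 : Tendsto (fun x => f x) cofinite (𝓝 0) := by
    have := f.zero_at_infty'
    rw [cocompact_eq_cofinite] at this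
    exact this
  have h2 := tendsto_pair_meanA h1
  rw [VectorMeasure.integral_zero_vectorMeasure]
  refine h2.congr (fun n => ?_)
  rw [measureMean_toM, integral_toM]
  rfl

theorem not_meanErgodic (ν : Measure Grp) [ν.IsHaarMeasure] (p : ℝ≥0∞) [Fact (1 ≤ p)] :
    ¬ MeanErgodic (oper ν p aa) := by
  rintro ⟨P, hP⟩
  have hp0 : p ≠ 0 := (zero_lt_one.trans_le (Fact.out : 1 ≤ p)).ne'
  have hν : ∀ x : Grp, ν {x} ≠ 0 := fun x => ((isOpen_discrete {x}).measure_pos ν ⟨x, rfl⟩).ne'
  have hνt : ν {(1 : Grp)} ≠ ∞ := measure_singleton_lt_top.ne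
  have hνx : ∀ x : Grp, ν {x} = ν {(1 : Grp)} := by
    intro x
    have h := measure_preimage_mul ν x⁻¹ ({1} : Set Grp)
    rw [← h]
    congr 1
    ext y
    simp [inv_mul_eq_one, eq_comm]
  -- the test function
  let D : Lp ℂ p ν := indicatorConstLp p (measurableSet_singleton (1 : Grp)) hνt (1 : ℂ)
  have hD : ∀ x : Grp, (D : Grp → ℂ) x = ({1} : Set Grp).indicator (fun _ => (1:ℂ)) x :=
    forall_of_ae hν indicatorConstLp_coeFn
  have hop : ∀ (b : Alg Grp) (x : Grp), (oper ν p b D : Grp → ℂ) x = pair (Pi.single x (1:ℂ)) b := by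
    intro b
    refine forall_of_ae hν ?_
    filter_upwards [oper_apply b D] with x hx
    rw [hx]
    congr 2
    funext y
    rw [hD]
    by_cases hy : y = x
    · subst hy; simp
    · rw [Pi.single_eq_of_ne hy, Set.indicator_of_notMem]
      simp only [Set.mem_singleton_iff, inv_mul_eq_one]
      exact hy
  have hA : ∀ n : ℕ, (n : ℂ)⁻¹ • ∑ k ∈ Finset.range n, ((oper ν p aa) ^ (k + 1)) D =
      oper ν p (meanA n) D := by
    intro n
    unfold meanA
    rw [map_smul, map_sum]
    simp only [map_pow, smul_apply, sum_apply]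
  have h1 := hP D
  simp only [hA] at h1
  set w : Lp ℂ p ν := P D with hw
  set c : ℝ≥0∞ := ν {(1 : Grp)} ^ (1 / p.toReal) with hc
  have hc0 : c ≠ 0 := by
    rw [hc]
    exact (ENNReal.rpow_pos (pos_iff_ne_zero.mpr (hν 1)) hνt).ne'
  have hct : c ≠ ∞ := by
    rw [hc]
    exact (ENNReal.rpow_lt_top_of_nonneg (by positivity) hνt).ne
  have hle : ∀ (f : Lp ℂ p ν) (x : Grp), ‖(f : Grp → ℂ) x‖ₑ ≤ ‖f‖ₑ * c⁻¹ := by
    intro f x
    rw [← div_eq_mul_inv, ENNReal.le_div_iff_mul_le (Or.inl hc0) (Or.inl hct), hc, ← hνx x]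
    exact enorm_apply_le hν f x
  have hdiff : Tendsto (fun n => ‖oper ν p (meanA n) D - w‖ₑ * c⁻¹) atTop (𝓝 0) := by
    have h2 : Tendsto (fun n => ‖oper ν p (meanA n) D - w‖ₑ) atTop (𝓝 0) := by
      have h3 : Tendsto (fun n => oper ν p (meanA n) D - w) atTop (𝓝 (w - w)) :=
        h1.sub tendsto_const_nhds
      have h4 := (continuous_enorm.tendsto _).comp h3
      rw [sub_self, enorm_zero] at h4
      exact h4
    have := ENNReal.Tendsto.mul_const (b := c⁻¹) h2 (Or.inr (ENNReal.inv_ne_top.mpr hc0))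
    simpa using this
  have hw0 : ∀ x : Grp, (w : Grp → ℂ) x = 0 := by
    intro x
    have h3 : Tendsto (fun n => pair (Pi.single x (1:ℂ)) (meanA n)) atTop (𝓝 0) := by
      apply tendsto_pair_meanA
      refine tendsto_nhds_of_eventually_eq ?_
      have : {y : Grp | ¬ (Pi.single x (1:ℂ) : Grp → ℂ) y = 0} ⊆ {x} := by
        intro y hy
        by_contra hne
        exact hy (Pi.single_eq_of_ne hne _)
      exact (Set.finite_singleton x).subset this
    have h4 : Tendsto (fun n => (oper ν p (meanA n) D : Grp → ℂ) x) atTop (𝓝 ((w : Grp → ℂ) x)) := by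
      rw [tendsto_iff_edist_tendsto_0]
      refine tendsto_of_tendsto_of_tendsto_of_le_of_le tendsto_const_nhds hdiff (fun n => bot_le) ?_
      intro n
      have h5 := hle (oper ν p (meanA n) D - w) x
      have h6 : ((oper ν p (meanA n) D - w : Lp ℂ p ν) : Grp → ℂ) x =
          (oper ν p (meanA n) D : Grp → ℂ) x - (w : Grp → ℂ) x :=
        forall_of_ae hν (Lp.coeFn_sub _ _) x
      rw [h6, ← edist_eq_enorm_sub] at h5
      exact h5
    simp only [hop] at h4
    exact tendsto_nhds_unique h4 h3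
  have hwz : w = 0 := by
    apply Lp.ext
    filter_upwards [Lp.coeFn_zero ℂ p ν] with x hx
    rw [hx, hw0 x]
    rfl
  rw [hwz] at hdiff
  have h7 : ∀ᶠ n in atTop, ‖oper ν p (meanA n) D - 0‖ₑ * c⁻¹ < 1 :=
    hdiff.eventually_lt_const (by norm_num)
  obtain ⟨n, hn1, hn2⟩ := (h7.and (eventually_ne_atTop 0)).exists
  have h8 := hle (oper ν p (meanA n) D) (gg, Multiplicative.ofAdd (n : ℤ))
  rw [hop, pair_peak hn2] at h8
  rw [sub_zero] at hn1
  have h9 := lt_of_le_of_lt h8 hn1
  simp at h9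

end

end Pool.Agent.H63.Vague
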