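import Pool.Agent.H63.Vague.Meas

set_option autoImplicit false
open MeasureTheory Filter Topology
open scoped ENNReal ZeroAtInfty

namespace Pool.Agent.H63.Vague

section
variable {G : Type} [Group G] [MeasurableSpace G] [MeasurableMul₂ G] [MeasurableInv G]
  {ν : Measure G} [ν.IsMulLeftInvariant] {p : ℝ≥0∞} [Fact (1 ≤ p)]

/-- Left translation by `g` on `L^p`. -/
noncomputable def trans (ν : Measure G) [ν.IsMulLeftInvariant] (p : ℝ≥0∞) [Fact (1 ≤ p)] (g : G) :
    Lp ℂ p ν →L[ℂ] Lp ℂ p ν :=
  (Lp.compMeasurePreservingₗᵢ ℂ (fun x => g⁻¹ * x) (measurePreserving_mul_left ν g⁻¹)).toContinuousLinearMap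

theorem trans_coe (g : G) (f : Lp ℂ p ν) :
    (trans ν p g f : G → ℂ) =ᵐ[ν] fun x => (f : G → ℂ) (g⁻¹ * x) :=
  Lp.coeFn_compMeasurePreserving f (measurePreserving_mul_left ν g⁻¹)

/-- Left translation as a representation. -/
noncomputable def transHom (ν : Measure G) [ν.IsMulLeftInvariant] (p : ℝ≥0∞) [Fact (1 ≤ p)] :
    G →* (Lp ℂ p ν →L[ℂ] Lp ℂ p ν) where
  toFun g := trans ν p g
  map_one' := by
    ext1 f
    apply Lp.ext
    filter_upwards [trans_coe (1 : G) f] with x hx
    rw [hx]
    simp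
  map_mul' g h := by
    ext1 f
    apply Lp.ext
    have h1 := trans_coe g (trans ν p h f)
    have h2 := (measurePreserving_mul_left ν g⁻¹).quasiMeasurePreserving.ae (trans_coe h f)
    filter_upwards [trans_coe (g * h) f, h1, h2] with x hx hx1 hx2
    rw [hx]
    change _ = (trans ν p g (trans ν p h f) : G → ℂ) x
    rw [hx1, hx2]
    simp [mul_assoc]

/-- The convolution operator of an element of the group algebra. -/
noncomputable def oper (ν : Measure G) [ν.IsMulLeftInvariant] (p : ℝ≥0∞) [Fact (1 ≤ p)] :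
    Alg G →ₐ[ℂ] (Lp ℂ p ν →L[ℂ] Lp ℂ p ν) :=
  MonoidAlgebra.lift ℂ (Lp ℂ p ν →L[ℂ] Lp ℂ p ν) G (transHom ν p)

theorem oper_single (g : G) (v : ℂ) :
    oper ν p (MonoidAlgebra.single g v) = v • trans ν p g := by
  unfold oper
  rw [MonoidAlgebra.lift_single]
  rfl

theorem oper_apply (b : Alg G) (f : Lp ℂ p ν) :
    (oper ν p b f : G → ℂ) =ᵐ[ν] fun x => pair (fun y => (f : G → ℂ) (y⁻¹ * x)) b := by
  induction b using MonoidAlgebra.induction_linear with
  | zero =>
    rw [map_zero]
    filter_upwards [Lp.coeFn_zero ℂ p ν] with x hx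
    rw [map_zero]
    exact hx
  | add a b ha hb =>
    rw [map_add]
    have h := Lp.coeFn_add (oper ν p a f) (oper ν p b f)
    filter_upwards [ha, hb, h] with x h1 h2 h3
    rw [map_add, ← h1, ← h2]
    exact h3
  | single g v =>
    rw [oper_single]
    have h := Lp.coeFn_smul v (trans ν p g f)
    filter_upwards [h, trans_coe g f] with x h1 h2
    rw [pair_single]
    change (v • trans ν p g f : Lp ℂ p ν) x = _
    rw [h1, Pi.smul_apply, h2, smul_eq_mul, mul_comm]

theorem isConvolutionOperator_oper [MeasurableSingletonClass G] (b : Alg G) :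
    IsConvolutionOperator (toM b) ν p (oper ν p b) := by
  intro f
  filter_upwards [oper_apply b f] with x hx
  rw [hx, integral_toM]

end

end Pool.Agent.H63.Vague
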