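import Pool.Agent.H63.Vague.Alg
import Pool.Agent.H63.Vague.Oper

set_option autoImplicit false
open MeasureTheory Filter Topology
open scoped ENNReal ZeroAtInfty

namespace Pool.Agent.H63.Vague

/-- The group `S₃ × ℤ` (written multiplicatively). -/
abbrev Grp : Type := Equiv.Perm (Fin 3) × Multiplicative ℤ

/-- an involution -/
def hh : Equiv.Perm (Fin 3) := Equiv.swap 0 1
/-- a three-cycle -/
def gg : Equiv.Perm (Fin 3) := Equiv.swap 0 1 * Equiv.swap 1 2

/-- basis elements of the group algebra -/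
noncomputable def bas (x : Equiv.Perm (Fin 3)) (k : ℕ) : Alg Grp :=
  MonoidAlgebra.single (x, Multiplicative.ofAdd (k : ℤ)) 1

theorem bas_mul (x y : Equiv.Perm (Fin 3)) (k l : ℕ) : bas x k * bas y l = bas (x * y) (k + l) := by
  unfold bas
  rw [MonoidAlgebra.single_mul_single]
  simp [Prod.mk_mul_mk, ofAdd_add]

theorem bas_one : bas 1 0 = 1 := by
  unfold bas
  rw [MonoidAlgebra.one_def]
  simp
  rfl

/-- the central element of infinite order -/
noncomputable def ZZ : Alg Grp := bas 1 1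

theorem ZZ_pow (k : ℕ) : ZZ ^ k = bas 1 k := by
  induction k with
  | zero => rw [pow_zero, bas_one]
  | succ k ih => rw [pow_succ, ih, ZZ, bas_mul, one_mul]

/-- the nilpotent element -/
noncomputable def NN : Alg Grp := (1 - bas hh 0) * bas gg 0 * (1 + bas hh 0)

theorem hh_sq : bas hh 0 * bas hh 0 = 1 := by
  rw [bas_mul]
  have : hh * hh = 1 := by decide
  rw [this, bas_one]

theorem NN_sq : NN * NN = 0 := by
  have h1 : (1 + bas hh 0) * (1 - bas hh 0) = 0 := by
    have : (1 + bas hh 0) * (1 - bas hh 0) = 1 - bas hh 0 * bas hh 0 := by noncomm_ring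
    rw [this, hh_sq, sub_self]
  unfold NN
  have h2 : (1 - bas hh 0) * bas gg 0 * (1 + bas hh 0) * ((1 - bas hh 0) * bas gg 0 * (1 + bas hh 0))
      = (1 - bas hh 0) * bas gg 0 * ((1 + bas hh 0) * (1 - bas hh 0)) * (bas gg 0 * (1 + bas hh 0)) := by
    simp only [mul_assoc]
  rw [h2, h1, mul_zero, zero_mul]

theorem NN_eq : NN = bas gg 0 + bas (gg * hh) 0 - bas (hh * gg) 0 - bas (hh * gg * hh) 0 := by
  unfold NN
  rw [sub_mul, one_mul, bas_mul, sub_mul, mul_add, mul_add, mul_one, mul_one, bas_mul, bas_mul]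
  abel

theorem commute_ZZ (x : Equiv.Perm (Fin 3)) : Commute ZZ (bas x 0) := by
  unfold Commute SemiconjBy ZZ
  rw [bas_mul, bas_mul]
  simp

theorem commute_ZN : Commute ZZ NN := by
  rw [NN_eq]
  exact (((commute_ZZ _).add_right (commute_ZZ _)).sub_right (commute_ZZ _)).sub_right (commute_ZZ _)

theorem pow_mul_NN (k : ℕ) : ZZ ^ k * NN =
    bas gg k + bas (gg * hh) k - bas (hh * gg) k - bas (hh * gg * hh) k := by
  rw [NN_eq, ZZ_pow, mul_sub, mul_sub, mul_add, bas_mul, bas_mul, bas_mul, bas_mul]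
  simp

/-- The element of the group algebra defining the measure. -/
noncomputable def aa : Alg Grp := ZZ + (ZZ - 1) * NN

/-- Means of the powers. -/
noncomputable def meanA (n : ℕ) : Alg Grp := (n : ℂ)⁻¹ • ∑ k ∈ Finset.range n, aa ^ (k + 1)

section
variable [MeasurableSpace Grp]

theorem pair_bas (f : Grp → ℂ) (x : Equiv.Perm (Fin 3)) (k : ℕ) :
    pair f (bas x k) = f (x, Multiplicative.ofAdd (k : ℤ)) := by
  unfold bas
  rw [pair_single, mul_one]

/-- pairing with the nilpotent part -/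
noncomputable def uu (f : Grp → ℂ) (k : ℕ) : ℂ :=
  f (gg, Multiplicative.ofAdd (k : ℤ)) + f (gg * hh, Multiplicative.ofAdd (k : ℤ)) -
    f (hh * gg, Multiplicative.ofAdd (k : ℤ)) - f (hh * gg * hh, Multiplicative.ofAdd (k : ℤ))

theorem pair_meanA (f : Grp → ℂ) {n : ℕ} (hn : n ≠ 0) :
    pair f (meanA n) = (n : ℂ)⁻¹ * (∑ k ∈ Finset.range n, f (1, Multiplicative.ofAdd ((k + 1 : ℕ) : ℤ)))
      + (uu f n - (n : ℂ)⁻¹ * ∑ k ∈ Finset.range n, uu f k) := by
  have hu : ∀ k, pair f (ZZ ^ k * NN) = uu f k := by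
    intro k
    rw [pow_mul_NN]
    simp only [map_add, map_sub, pair_bas]
    rfl
  unfold meanA aa
  rw [pair_smul, sum_pow_formula commute_ZN NN_sq, map_add, map_sub, map_sum, map_sum]
  have h1 : ((n : Alg Grp) * (ZZ ^ n * NN)) = (n : ℂ) • (ZZ ^ n * NN) := by
    rw [← nsmul_eq_mul]
    exact (Nat.cast_smul_eq_nsmul ℂ n _).symm
  rw [h1, pair_smul, hu]
  have h2 : ∑ k ∈ Finset.range n, pair f (ZZ ^ k * NN) = ∑ k ∈ Finset.range n, uu f k :=
    Finset.sum_congr rfl (fun k _ => hu k)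
  have h3 : ∑ k ∈ Finset.range n, pair f (ZZ ^ (k + 1)) =
      ∑ k ∈ Finset.range n, f (1, Multiplicative.ofAdd ((k + 1 : ℕ) : ℤ)) :=
    Finset.sum_congr rfl (fun k _ => by rw [ZZ_pow, pair_bas])
  rw [h2, h3]
  have hn' : (n : ℂ) ≠ 0 := Nat.cast_ne_zero.mpr hn
  field_simp

theorem injective_emb (x : Equiv.Perm (Fin 3)) :
    Function.Injective (fun k : ℕ => ((x, Multiplicative.ofAdd (k : ℤ)) : Grp)) := by
  intro k l h
  simpa using h

theorem tendsto_pair_meanA {f : Grp → ℂ} (hf : Tendsto f cofinite (𝓝 0)) :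
    Tendsto (fun n => pair f (meanA n)) atTop (𝓝 0) := by
  have h0 : ∀ x : Equiv.Perm (Fin 3),
      Tendsto (fun k : ℕ => f (x, Multiplicative.ofAdd (k : ℤ))) atTop (𝓝 0) := by
    intro x
    have := hf.comp (injective_emb x).tendsto_cofinite
    rw [Nat.cofinite_eq_atTop] at this
    exact this
  have hu : Tendsto (uu f) atTop (𝓝 0) := by
    have := (((h0 gg).add (h0 (gg * hh))).sub (h0 (hh * gg))).sub (h0 (hh * gg * hh))
    simp only [add_zero, sub_zero] at this
    exact this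
  have h1 : Tendsto (fun k : ℕ => f (1, Multiplicative.ofAdd ((k + 1 : ℕ) : ℤ))) atTop (𝓝 0) :=
    (h0 1).comp (tendsto_add_atTop_nat 1)
  have c1 := h1.cesaro_smul
  have c2 := hu.cesaro_smul
  have h4 : Tendsto (fun n : ℕ => (n : ℂ)⁻¹ *
      (∑ k ∈ Finset.range n, f (1, Multiplicative.ofAdd ((k + 1 : ℕ) : ℤ)))
      + (uu f n - (n : ℂ)⁻¹ * ∑ k ∈ Finset.range n, uu f k)) atTop (𝓝 (0 + (0 - 0))) := by
    refine Tendsto.add ?_ (hu.sub ?_)
    · refine c1.congr (fun n => ?_)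
      rw [Complex.real_smul]
      simp
    · refine c2.congr (fun n => ?_)
      rw [Complex.real_smul]
      simp
  rw [sub_zero, add_zero] at h4
  refine h4.congr' ?_
  filter_upwards [eventually_ne_atTop 0] with n hn
  exact (pair_meanA f hn).symm

theorem pair_peak {n : ℕ} (hn : n ≠ 0) :
    pair (Pi.single ((gg, Multiplicative.ofAdd (n : ℤ)) : Grp) (1:ℂ)) (meanA n) = 1 := by
  classical
  have hg1 : (1 : Equiv.Perm (Fin 3)) ≠ gg := by decide
  have hg2 : gg * hh ≠ gg := by decide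
  have hg3 : hh * gg ≠ gg := by decide
  have hg4 : hh * gg * hh ≠ gg := by decide
  rw [pair_meanA _ hn]
  have e1 : ∀ k : ℕ, (Pi.single ((gg, Multiplicative.ofAdd (n : ℤ)) : Grp) (1:ℂ) : Grp → ℂ)
      (1, Multiplicative.ofAdd ((k + 1 : ℕ) : ℤ)) = 0 := by
    intro k
    apply Pi.single_eq_of_ne
    intro h
    exact hg1 (congrArg Prod.fst h)
  have e2 : ∀ k : ℕ, k ≠ n → uu (Pi.single ((gg, Multiplicative.ofAdd (n : ℤ)) : Grp) (1:ℂ)) k = 0 := by
    intro k hk
    unfold uu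
    have : ∀ x : Equiv.Perm (Fin 3), (Pi.single ((gg, Multiplicative.ofAdd (n : ℤ)) : Grp) (1:ℂ) :
        Grp → ℂ) (x, Multiplicative.ofAdd (k : ℤ)) = 0 := by
      intro x
      apply Pi.single_eq_of_ne
      intro h
      apply hk
      have := congrArg Prod.snd h
      simpa using this
    rw [this, this, this, this]
    simp
  have e3 : uu (Pi.single ((gg, Multiplicative.ofAdd (n : ℤ)) : Grp) (1:ℂ)) n = 1 := by
    unfold uu
    have : ∀ x : Equiv.Perm (Fin 3), x ≠ gg →
        (Pi.single ((gg, Multiplicative.ofAdd (n : ℤ)) : Grp) (1:ℂ) :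
        Grp → ℂ) (x, Multiplicative.ofAdd (n : ℤ)) = 0 := by
      intro x hx
      apply Pi.single_eq_of_ne
      intro h
      exact hx (congrArg Prod.fst h)
    rw [this _ hg2, this _ hg3, this _ hg4]
    simp
  rw [Finset.sum_eq_zero (fun k _ => e1 k), Finset.sum_eq_zero (fun k hk => e2 k (by
    have := Finset.mem_range.mp hk
    omega)), e3]
  simp

end

section Lp
variable {G : Type} [Group G] [Countable G] [MeasurableSpace G] [MeasurableSingletonClass G]
  {ν : Measure G} {p : ℝ≥0∞} [Fact (1 ≤ p)]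

theorem forall_of_ae (hν : ∀ x, ν {x} ≠ 0) {P : G → Prop} (h : ∀ᵐ x ∂ν, P x) (x : G) : P x := by
  by_contra hx
  have h1 : ν {y | ¬ P y} = 0 := ae_iff.mp h
  exact hν x (measure_mono_null (by intro y hy; rw [Set.mem_singleton_iff.mp hy]; exact hx) h1)

theorem enorm_apply_le (hν : ∀ x, ν {x} ≠ 0) (f : Lp ℂ p ν) (x : G) :
    ‖(f : G → ℂ) x‖ₑ * ν {x} ^ (1 / p.toReal) ≤ ‖f‖ₑ := by
  have h1 : (({x} : Set G).indicator (f : G → ℂ)) = ({x} : Set G).indicator (fun _ => (f : G → ℂ) x) := by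
    funext y
    by_cases hy : y = x
    · subst hy; simp
    · rw [Set.indicator_of_notMem (by simpa using hy), Set.indicator_of_notMem (by simpa using hy)]
  have h2 := eLpNorm_indicator_le (f := (f : G → ℂ)) (s := {x}) (p := p) (μ := ν)
  rw [h1, eLpNorm_indicator_const' (measurableSet_singleton x) (hν x)
    (zero_lt_one.trans_le (Fact.out : 1 ≤ p)).ne'] at h2
  rw [Lp.enorm_def]
  exact h2

end Lp

end Pool.Agent.H63.Vague
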