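import Pool.Agent.H63.Vague.Defs

set_option autoImplicit false
open MeasureTheory Filter Topology
open scoped ENNReal ZeroAtInfty

namespace Pool.Agent.H63.Vague

/-- The group algebra. -/
abbrev Alg (G : Type) : Type := MonoidAlgebra ℂ G

section
variable {G : Type} [Group G] [MeasurableSpace G]

theorem dirac_add (g : G) (v w : ℂ) :
    VectorMeasure.dirac g (v + w) = VectorMeasure.dirac g v + VectorMeasure.dirac g w := by
  ext s hs
  by_cases hg : g ∈ s
  · simp [hs, hg]
  · simp [hg]

/-- Point masses as an additive map. -/
noncomputable def diracHom (g : G) : ℂ →+ ComplexMeasure G where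
  toFun v := VectorMeasure.dirac g v
  map_zero' := VectorMeasure.dirac_zero
  map_add' v w := dirac_add g v w

/-- The complex measure attached to an element of the group algebra. -/
noncomputable def toM : Alg G →+ ComplexMeasure G :=
  (Finsupp.liftAddHom diracHom).comp MonoidAlgebra.coeffAddEquiv.toAddMonoidHom

theorem toM_single (g : G) (v : ℂ) : toM (MonoidAlgebra.single g v) = VectorMeasure.dirac g v := by
  simp only [toM, AddMonoidHom.comp_apply]
  change Finsupp.liftAddHom diracHom (Finsupp.single g v) = _
  rw [Finsupp.liftAddHom_apply_single]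
  rfl

theorem toM_smul (c : ℂ) (b : Alg G) : toM (c • b) = c • toM b := by
  induction b using MonoidAlgebra.induction_linear with
  | zero =>
    rw [smul_zero, map_zero]
    ext s hs
    simp
  | add x y hx hy =>
    rw [smul_add, map_add, map_add, hx, hy]
    ext s hs
    simp [mul_add]
  | single g v =>
    rw [MonoidAlgebra.smul_single, toM_single, toM_single]
    ext s hs
    by_cases hg : g ∈ s
    · simp [hs, hg]
    · simp [hg]

theorem finite_add {μ ν : ComplexMeasure G} (h1 : IsFiniteMeasure μ.variation)
    (h2 : IsFiniteMeasure ν.variation) : IsFiniteMeasure (μ + ν).variation :=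
  isFiniteMeasure_of_le (μ.variation + ν.variation) VectorMeasure.variation_add_le

instance finite_toM (b : Alg G) : IsFiniteMeasure (toM b).variation := by
  induction b using MonoidAlgebra.induction_linear with
  | zero =>
    rw [map_zero, VectorMeasure.variation_zero]
    infer_instance
  | add x y hx hy =>
    rw [map_add]
    exact finite_add hx hy
  | single g v =>
    rw [toM_single]
    infer_instance

theorem conv_add_left (μ₁ μ₂ ν : ComplexMeasure G) [IsFiniteMeasure ν.variation] :
    conv (μ₁ + μ₂) ν = conv μ₁ ν + conv μ₂ ν := by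
  unfold conv
  rw [← VectorMeasure.map_add]
  congr 1
  apply VectorMeasure.prod_eq_of_forall_apply_prod
  intro s t _ _
  simp [add_mul]

theorem conv_add_right (μ ν₁ ν₂ : ComplexMeasure G) [IsFiniteMeasure μ.variation] :
    conv μ (ν₁ + ν₂) = conv μ ν₁ + conv μ ν₂ := by
  unfold conv
  rw [← VectorMeasure.map_add]
  congr 1
  apply VectorMeasure.prod_eq_of_forall_apply_prod
  intro s t _ _
  simp [mul_add]

theorem conv_zero_left (ν : ComplexMeasure G) : conv 0 ν = 0 := by
  unfold conv
  have h : (0 : ComplexMeasure G).prod ν (ContinuousLinearMap.mul ℝ ℂ) = 0 := by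
    apply VectorMeasure.prod_eq_of_forall_apply_prod
    intro s t _ _
    simp
  rw [h]
  exact VectorMeasure.map_zero _

theorem conv_zero_right (ν : ComplexMeasure G) : conv ν 0 = 0 := by
  unfold conv
  have h : ν.prod (0 : ComplexMeasure G) (ContinuousLinearMap.mul ℝ ℂ) = 0 := by
    apply VectorMeasure.prod_eq_of_forall_apply_prod
    intro s t _ _
    simp
  rw [h]
  exact VectorMeasure.map_zero _

theorem conv_dirac [MeasurableMul₂ G] (g h : G) (v w : ℂ) :
    conv (VectorMeasure.dirac g v) (VectorMeasure.dirac h w) =
      VectorMeasure.dirac (g * h) (v * w) := by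
  unfold conv
  have h1 : (VectorMeasure.dirac g v : ComplexMeasure G).prod (VectorMeasure.dirac h w)
      (ContinuousLinearMap.mul ℝ ℂ) = VectorMeasure.dirac (g, h) (v * w) := by
    apply VectorMeasure.prod_eq_of_forall_apply_prod
    intro s t hs ht
    by_cases hg : g ∈ s
    · by_cases hh : h ∈ t
      · rw [VectorMeasure.dirac_apply_of_mem (hs.prod ht) ⟨hg, hh⟩,
          VectorMeasure.dirac_apply_of_mem hs hg, VectorMeasure.dirac_apply_of_mem ht hh]
        rfl
      · have : (g, h) ∉ s ×ˢ t := fun hc => hh hc.2
        rw [VectorMeasure.dirac_apply_of_notMem this, VectorMeasure.dirac_apply_of_notMem hh]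
        simp
    · have : (g, h) ∉ s ×ˢ t := fun hc => hg hc.1
      rw [VectorMeasure.dirac_apply_of_notMem this, VectorMeasure.dirac_apply_of_notMem hg]
      simp
  rw [h1]
  ext s hs
  rw [VectorMeasure.map_apply _ measurable_mul hs]
  by_cases hgs : g * h ∈ s
  · rw [VectorMeasure.dirac_apply_of_mem hs hgs,
      VectorMeasure.dirac_apply_of_mem (measurable_mul hs) (by exact hgs)]
  · rw [VectorMeasure.dirac_apply_of_notMem hgs, VectorMeasure.dirac_apply_of_notMem (by exact hgs)]

theorem conv_toM [MeasurableMul₂ G] (a b : Alg G) : conv (toM a) (toM b) = toM (a * b) := by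
  induction a using MonoidAlgebra.induction_linear with
  | zero => simp [conv_zero_left]
  | add x y hx hy => rw [add_mul, map_add, map_add, conv_add_left, hx, hy]
  | single g v =>
    induction b using MonoidAlgebra.induction_linear with
    | zero => simp [conv_zero_right]
    | add x y hx hy => rw [mul_add, map_add, map_add, conv_add_right, hx, hy]
    | single h w =>
      rw [MonoidAlgebra.single_mul_single, toM_single, toM_single, toM_single, conv_dirac]

theorem convPow_toM [MeasurableMul₂ G] (a : Alg G) (n : ℕ) : convPow (toM a) n = toM (a ^ n) := by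
  induction n with
  | zero =>
    rw [pow_zero, MonoidAlgebra.one_def, toM_single]
    rfl
  | succ n ih =>
    rw [pow_succ, ← conv_toM, ← ih]
    rfl

theorem measureMean_toM [MeasurableMul₂ G] (a : Alg G) (n : ℕ) :
    measureMean (toM a) n = toM ((n : ℂ)⁻¹ • ∑ k ∈ Finset.range n, a ^ (k + 1)) := by
  unfold measureMean
  rw [toM_smul, map_sum]
  congr 1
  exact Finset.sum_congr rfl (fun k _ => convPow_toM a (k + 1))

/-- Pairing of a function with an element of the group algebra. -/
noncomputable def pair (f : G → ℂ) : Alg G →+ ℂ :=
  (Finsupp.liftAddHom (fun g => (AddMonoidHom.mulLeft (f g)))).comp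
    MonoidAlgebra.coeffAddEquiv.toAddMonoidHom

theorem pair_single (f : G → ℂ) (g : G) (v : ℂ) : pair f (MonoidAlgebra.single g v) = f g * v := by
  simp only [pair, AddMonoidHom.comp_apply]
  change Finsupp.liftAddHom _ (Finsupp.single g v) = _
  rw [Finsupp.liftAddHom_apply_single]
  rfl

theorem pair_smul (f : G → ℂ) (c : ℂ) (b : Alg G) : pair f (c • b) = c * pair f b := by
  induction b using MonoidAlgebra.induction_linear with
  | zero => simp
  | add x y hx hy => rw [smul_add, map_add, map_add, mul_add, hx, hy]
  | single g v =>
    rw [MonoidAlgebra.smul_single, pair_single, pair_single, smul_eq_mul]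
    ring

theorem integrable_toM [MeasurableSingletonClass G] (f : G → ℂ) (b : Alg G) :
    (toM b).Integrable f := by
  induction b using MonoidAlgebra.induction_linear with
  | zero =>
    rw [map_zero]
    exact VectorMeasure.Integrable.zero_vectorMeasure
  | add x y hx hy =>
    rw [map_add]
    exact hx.add_vectorMeasure hy
  | single g v =>
    rw [toM_single]
    change Integrable f (VectorMeasure.dirac g v).variation
    rw [VectorMeasure.variation_dirac]
    exact (integrable_dirac (by simp)).smul_measure (by simp)

theorem integral_toM [MeasurableSingletonClass G] (f : G → ℂ) (b : Alg G) :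
    ∫ᵛ x, f x ∂[ContinuousLinearMap.mul ℝ ℂ; toM b] = pair f b := by
  induction b using MonoidAlgebra.induction_linear with
  | zero => simp
  | add x y hx hy =>
    rw [map_add, map_add, VectorMeasure.integral_add_vectorMeasure (integrable_toM f x)
      (integrable_toM f y), hx, hy]
  | single g v =>
    rw [toM_single, pair_single, VectorMeasure.integral_dirac]
    rfl

end

end Pool.Agent.H63.Vague
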